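import Pool.Agent.H64.FTM.Targets2

/-!
# ADE: a homogeneous basis of a direct factor

Adapted from Pool/Agent/H21/EV/ADO.lean (helper21) and Pool/Agent/H33/NL/ADA.lean (helper33).
-/

set_option autoImplicit false

open Matrix Pool.Agent.H64.CC Pool.Agent.H2.NL Pool.Agent.H2.KM Pool.Agent.H64.EV Pool.Agent.H64.FTM
open Pool.Agent.H64.EK hiding kap

namespace Pool.Agent.H4.FTM

private theorem dot_left {K : Type} [Field K] {I J : Type} [Fintype I] [Fintype J]
    (j : Matrix I J K) (x : J → K) (w : I → K) : (j *ᵥ x) ⬝ᵥ w = x ⬝ᵥ (jᵀ *ᵥ w) := by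
  rw [Matrix.dotProduct_mulVec, Matrix.vecMul_transpose]

private theorem mv {K : Type} [Field K] {I J : Type} [Fintype J] (M : Matrix I J K) (x : J → K)
    (a : I) : (M *ᵥ x) a = ∑ b, M a b * x b := rfl

/-- a homogeneous basis of a nondegenerate graded subspace, both parities -/
private theorem hyp_basis (hHYO : Pool.Agent.H64.EV.T_HYO) (hHYB : Pool.Agent.H2.NL.T_HYB)
    (K : Type) [Field K] [CharZero K] (N : ℕ) (deg : Fin N → ℕ) (τ : ℕ)
    (η : Matrix (Fin N) (Fin N) K) (hη : ∀ a b, η a b ≠ 0 → deg a + deg b = 2 * τ)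
    (hs : ∀ a b, η a b = ks K (decide (Odd (deg a))) (decide (Odd (deg b))) * η b a)
    (U : Submodule K (Fin N → K))
    (hU : ∀ u ∈ U, ∀ d : ℕ, (fun a => if deg a = d then u a else 0) ∈ U)
    (hUn : ∀ u ∈ U, (∀ v ∈ U, u ⬝ᵥ (η *ᵥ v) = 0) → u = 0) :
    ∃ (n : ℕ) (j : Matrix (Fin N) (Fin n) K) (dg : Fin n → ℕ) (G : OForm K (Fin n)),
      (∀ b, (fun a => j a b) ∈ U) ∧ (∀ u ∈ U, ∃ x, u = j *ᵥ x) ∧
      jᵀ * η * j = G.η ∧ (∀ a b, j a b ≠ 0 → deg a = dg b) ∧
      (∀ b, G.o b = decide (Odd (dg b))) := by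
  rcases Nat.even_or_odd τ with hτ | hτ
  · obtain ⟨n, j, dg, G, -, h1, h2, h3, h4, h5, -⟩ := hHYO K N deg τ η hτ hη hs U hU hUn
    exact ⟨n, j, dg, G, h1, h2, h3, h4, h5⟩
  · obtain ⟨n, j, dg, F, -, h1, h2, h3, h4, h5⟩ := hHYB K N deg τ η hτ hη hs U hU hUn
    exact ⟨n, j, dg, toO F, h1, h2, h3, h4, h5⟩

theorem pf_ADE (hHYO : Pool.Agent.H64.EV.T_HYO) (hHYB : Pool.Agent.H2.NL.T_HYB) : T_ADE := by
  classical
  intro K _ _ N deg τ η ρ hη hs hunit hρρ hadj hρd
  -- the range of `ρ`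
  obtain ⟨U, hU⟩ : ∃ U : Submodule K (Fin N → K), ∀ x, x ∈ U ↔ ρ *ᵥ x = x := by
    refine ⟨{ carrier := {x | ρ *ᵥ x = x}
              add_mem' := ?_, zero_mem' := ?_, smul_mem' := ?_ }, fun x => Iff.rfl⟩
    · intro x y hx hy
      show ρ *ᵥ (x + y) = x + y
      rw [Matrix.mulVec_add, hx, hy]
    · exact Matrix.mulVec_zero ρ
    · intro c x hx
      show ρ *ᵥ (c • x) = c • x
      rw [Matrix.mulVec_smul, hx]
  have hdegρ : ∀ (x : Fin N → K) (d : ℕ), ρ *ᵥ (fun a => if deg a = d then x a else 0) =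
      fun a => if deg a = d then (ρ *ᵥ x) a else 0 := by
    intro x d
    funext a
    rw [mv, mv]
    by_cases ha : deg a = d
    · rw [if_pos ha]
      refine Finset.sum_congr rfl fun b _ => ?_
      by_cases hab : ρ a b = 0
      · rw [hab]; ring
      · rw [if_pos ((hρd a b hab).symm.trans ha)]
    · rw [if_neg ha]
      refine Finset.sum_eq_zero fun b _ => ?_
      by_cases hab : ρ a b = 0
      · rw [hab]; ring
      · rw [if_neg fun h => ha ((hρd a b hab).trans h), mul_zero]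
  obtain ⟨n, j, dg, G, hj, hjs, hform, hdg, ho⟩ := hyp_basis hHYO hHYB K N deg τ η hη hs U (by
    intro x hx d
    rw [hU] at hx ⊢
    rw [hdegρ, hx]) (by
    intro x hx h0
    have hx1 := (hU x).1 hx
    have h4 : ∀ y : Fin N → K, x ⬝ᵥ (η *ᵥ y) = 0 := by
      intro y
      have h5 := h0 (ρ *ᵥ y) (by rw [hU, Matrix.mulVec_mulVec, hρρ])
      rw [Matrix.mulVec_mulVec, ← hadj, ← Matrix.mulVec_mulVec, ← dot_left, hx1] at h5
      exact h5
    have h6 : x ᵥ* η = 0 := by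
      funext a
      have h7 := h4 (Pi.single a 1)
      rw [Matrix.dotProduct_mulVec, dotProduct_single_one] at h7
      exact h7
    obtain ⟨v, hv⟩ := hunit.exists_right_inv
    have h8 : (x ᵥ* η) ᵥ* v = x := by
      rw [Matrix.vecMul_vecMul, hv, Matrix.vecMul_one]
    rw [← h8, h6, Matrix.zero_vecMul])
  have hρj : ρ * j = j := by
    ext a b
    exact congrFun ((hU _).1 (hj b)) a
  obtain ⟨i, hi⟩ : ∃ i, i = G.ω * jᵀ * η := ⟨_, rfl⟩
  have hij : i * j = 1 := by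
    rw [hi, Matrix.mul_assoc, Matrix.mul_assoc, ← Matrix.mul_assoc jᵀ, hform, G.ω_mul_η]
  have hji1 : j * i * ρ = j * i := by
    have h1 : jᵀ * η * ρ = jᵀ * η := by
      rw [Matrix.mul_assoc, ← hadj, ← Matrix.mul_assoc, ← Matrix.transpose_mul, hρj]
    rw [hi, Matrix.mul_assoc, Matrix.mul_assoc G.ω, Matrix.mul_assoc G.ω, h1]
  have hji2 : j * i * ρ = ρ := by
    have h1 : ∀ y : Fin N → K, (j * i * ρ) *ᵥ y = ρ *ᵥ y := by
      intro y
      obtain ⟨x, hx⟩ := hjs (ρ *ᵥ y) (by rw [hU, Matrix.mulVec_mulVec, hρρ])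
      rw [← Matrix.mulVec_mulVec, hx, ← Matrix.mulVec_mulVec, Matrix.mulVec_mulVec x i j, hij,
        Matrix.one_mulVec]
    ext a b
    have h2 := congrFun (h1 (Pi.single b 1)) a
    rw [Matrix.mulVec_single_one, Matrix.mulVec_single_one] at h2
    exact h2
  have hji : j * i = ρ := hji1.symm.trans hji2
  have hst : ∀ b, dg b + dg (G.st b) = 2 * τ := by
    intro b
    have h1 : G.η b (G.st b) ≠ 0 := by
      unfold OForm.η
      rw [Matrix.of_apply, if_pos rfl]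
      exact G.c_ne b
    rw [← hform, Matrix.mul_apply] at h1
    obtain ⟨z, -, hz⟩ := Finset.exists_ne_zero_of_sum_ne_zero h1
    have hz1 := left_ne_zero_of_mul hz
    have hz2 := right_ne_zero_of_mul hz
    rw [Matrix.mul_apply] at hz1
    obtain ⟨y, -, hy⟩ := Finset.exists_ne_zero_of_sum_ne_zero hz1
    have hy1 : j y b ≠ 0 := left_ne_zero_of_mul hy
    have hy2 := right_ne_zero_of_mul hy
    rw [← hdg y b hy1, ← hdg z _ hz2]
    exact hη y z hy2
  refine ⟨n, j, i, dg, G, hij, hji, hform, ?_, hdg, ?_, ho⟩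
  · rw [hi, ← Matrix.mul_assoc, ← Matrix.mul_assoc, G.η_mul_ω, Matrix.one_mul]
  · intro b a hba
    rw [hi, Matrix.mul_apply] at hba
    obtain ⟨y, -, hy⟩ := Finset.exists_ne_zero_of_sum_ne_zero hba
    have hy1 := left_ne_zero_of_mul hy
    have hy2 := right_ne_zero_of_mul hy
    rw [Matrix.mul_apply] at hy1
    obtain ⟨x, -, hx⟩ := Finset.exists_ne_zero_of_sum_ne_zero hy1
    have hx1 := left_ne_zero_of_mul hx
    have hx2 : j y x ≠ 0 := right_ne_zero_of_mul hx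
    have hx3 : x = G.st b := by
      by_contra hc
      apply hx1
      unfold OForm.ω
      rw [Matrix.of_apply, if_neg hc]
    have h1 := hst b
    have h2 := hη y a hy2
    have h3 := hdg y x hx2
    rw [hx3] at h3
    omega

end Pool.Agent.H4.FTM
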